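import Pool.Agent.Y451.AM.Stm

/-!
# The tile lemma
-/

set_option autoImplicit false
set_option linter.unusedSectionVars false

open MeasureTheory

noncomputable section

namespace Pool.Agent.Y469.AM

open Pool.Agent.Y451.AM

/-- A weighted average which is at most `R` has a term which is at most `R`. -/
theorem exists_le_of_avg {Cs : Type} [Fintype Cs] (q G : Cs → ℝ) (R : ℝ) (hq0 : ∀ c, 0 ≤ q c)
    (hq1 : ∑ c, q c = 1) (h : ∑ c, q c * G c ≤ R) : ∃ c, G c ≤ R := by
  by_contra hcon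
  push Not at hcon
  have h1 : R = ∑ c, q c * R := by rw [← Finset.sum_mul, hq1, one_mul]
  have h2 : ∃ c, 0 < q c := by
    by_contra hc
    push Not at hc
    have h3 : ∑ c, q c = 0 := Finset.sum_eq_zero fun c _ => le_antisymm (hc c) (hq0 c)
    rw [h3] at hq1
    exact zero_ne_one hq1
  obtain ⟨c, hc⟩ := h2
  have h4 : ∑ c, q c * R < ∑ c, q c * G c := by
    refine Finset.sum_lt_sum (fun c _ => mul_le_mul_of_nonneg_left (hcon c).le (hq0 c))
      ⟨c, Finset.mem_univ _, ?_⟩
    exact mul_lt_mul_of_pos_left (hcon c) hc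
  linarith

theorem sum4 {α β γ δ : Type} [Fintype α] [Fintype β] [Fintype γ] [Fintype δ]
    (K : β → α → γ → ℝ) (m : δ → ℝ) (J : α → γ → δ → ℝ) :
    ∑ c, ∑ l, ∑ u, K l c u * ∑ x, m x * J c u x =
      ∑ x, m x * ∑ l, ∑ c, ∑ u, K l c u * J c u x := by
  simp only [Finset.mul_sum]
  calc ∑ c, ∑ l, ∑ u, ∑ x, K l c u * (m x * J c u x)
      = ∑ c, ∑ l, ∑ x, ∑ u, K l c u * (m x * J c u x) :=
        Finset.sum_congr rfl fun c _ => Finset.sum_congr rfl fun l _ => Finset.sum_comm
    _ = ∑ c, ∑ x, ∑ l, ∑ u, K l c u * (m x * J c u x) :=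
        Finset.sum_congr rfl fun c _ => Finset.sum_comm
    _ = ∑ x, ∑ c, ∑ l, ∑ u, K l c u * (m x * J c u x) := Finset.sum_comm
    _ = ∑ x, ∑ l, ∑ c, ∑ u, K l c u * (m x * J c u x) :=
        Finset.sum_congr rfl fun x _ => Finset.sum_comm
    _ = ∑ x, ∑ l, ∑ c, ∑ u, m x * (K l c u * J c u x) :=
        Finset.sum_congr rfl fun x _ => Finset.sum_congr rfl fun l _ =>
          Finset.sum_congr rfl fun c _ => Finset.sum_congr rfl fun u _ => by ring

theorem box (hC : Pool.Agent.Y451.AM.S_CPL) : Pool.Agent.Y451.AM.S_BOX := by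
  intro Γ _ _ k W Pr hloc F hF hSol t ε hε
  obtain ⟨S, C, hC0, hcpl⟩ := hC Γ k W F hF t ε hε
  refine ⟨S, C, hC0, fun E => ?_⟩
  obtain ⟨eps, D, he0, hes, heD, hT⟩ := hcpl E
  refine ⟨eps, he0, hes, ?_⟩
  intro T p M κ hM hκ hcor
  obtain ⟨Cs, _, q, P, kap, hq0, hq1, hk0, hkpos, hksum, hkv, hkP⟩ := hT T
  classical
  let ind : Cs → Pat Γ k E → {v : Γ // v ∈ E} → ℝ := fun c u x =>
    if x.1 ∈ D then (if u x = P c x.1 then 0 else 1) else 0
  have hind0 : ∀ c u x, 0 ≤ ind c u x := by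
    intro c u x
    simp only [ind]
    split_ifs <;> norm_num
  let cost : Cs → Pat Γ k E → ℝ := fun c u =>
    ∑ x : {v : Γ // v ∈ E}, M x.1 * ind c u x
  let lam : Pat Γ k (bd (dif W) E) → ℝ := fun l =>
    (PP Γ).real {b | rs (bd (dif W) E) (tb T (sg F b)) = l}
  have hlam0 : ∀ l, 0 ≤ lam l := fun l => measureReal_nonneg
  have hcost0 : ∀ c u, 0 ≤ cost c u := fun c u =>
    Finset.sum_nonneg fun x _ => mul_nonneg (hM _) (hind0 c u x)
  let good : (Γ → Fin k) → Prop := fun τ => ∀ g, win W E g → Pr (sh g τ)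
  have key : ∀ (l : Pat Γ k (bd (dif W) E)) (c : Cs), ∃ τ₀ : Γ → Fin k,
      ((∃ τ', good τ' ∧ rs (bd (dif W) E) τ' = l) → good τ₀ ∧ rs (bd (dif W) E) τ₀ = l) ∧
      lam l * q c * cost c (rs E τ₀) ≤ ∑ u, kap l c u * cost c u := by
    intro l c
    by_cases h : 0 < lam l * q c
    · have hs : ∑ u, kap l c u = lam l * q c := hksum l c
      have hne : (Finset.univ.filter fun u => kap l c u ≠ 0).Nonempty := by
        by_contra hcon
        rw [Finset.not_nonempty_iff_eq_empty, Finset.filter_eq_empty_iff] at hcon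
        have h1 : ∑ u, kap l c u = 0 := Finset.sum_eq_zero fun u hu => not_not.1 (hcon hu)
        rw [h1] at hs
        rw [← hs] at h
        exact lt_irrefl _ h
      obtain ⟨u₀, hu₀, hmin⟩ := Finset.exists_min_image _ (cost c) hne
      have hu₀' : kap l c u₀ ≠ 0 := (Finset.mem_filter.1 hu₀).2
      have hpos := hkpos l c u₀ hu₀'
      have hex : ∃ b : Om Γ, (rs (bd (dif W) E) (tb T (sg F b)) = l ∧
          rs E (tb T (sg F b)) = u₀) ∧ Sol Pr (sg F b) := by
        by_contra hcon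
        push Not at hcon
        have h2 : (PP Γ) {b | rs (bd (dif W) E) (tb T (sg F b)) = l ∧
            rs E (tb T (sg F b)) = u₀} = 0 :=
          measure_mono_null (fun b hb => hcon b hb) (ae_iff.1 hSol)
        rw [measureReal_def, h2] at hpos
        simp at hpos
      obtain ⟨b, ⟨hb1, hb2⟩, hbS⟩ := hex
      refine ⟨tb T (sg F b), fun _ => ⟨fun g hg => hcor _ hbS g hg, hb1⟩, ?_⟩
      rw [hb2, ← hs, Finset.sum_mul]
      refine Finset.sum_le_sum fun u _ => ?_
      by_cases hu : kap l c u = 0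
      · rw [hu, zero_mul, zero_mul]
      · exact mul_le_mul_of_nonneg_left
          (hmin u (Finset.mem_filter.2 ⟨Finset.mem_univ _, hu⟩)) (hk0 l c u)
    · have h0 : lam l * q c = 0 := le_antisymm (not_lt.1 h) (mul_nonneg (hlam0 l) (hq0 c))
      have hR : 0 ≤ ∑ u, kap l c u * cost c u :=
        Finset.sum_nonneg fun u _ => mul_nonneg (hk0 l c u) (hcost0 c u)
      by_cases hex : ∃ τ', good τ' ∧ rs (bd (dif W) E) τ' = l
      · obtain ⟨τ', h1, h2⟩ := hex
        refine ⟨τ', fun _ => ⟨h1, h2⟩, ?_⟩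
        rw [h0, zero_mul]
        exact hR
      · refine ⟨fun _ => F (fun _ => 0), fun h => absurd h hex, ?_⟩
        rw [h0, zero_mul]
        exact hR
  choose conf hconf1 hconf2 using key
  let Q : Cs → Γ → Fin k := fun c v => if v ∈ D then P c v else p v
  let Φ : Cs → (Γ → Fin k) → Γ → Fin k := fun c τ => conf (rs (bd (dif W) E) τ) c
  let A : Cs → Γ → ℝ := fun c v => (PP Γ).real {b | Φ c (tb T (sg F b)) v ≠ Q c v}
  let Bv : Cs → Γ → ℝ := fun c v => if Q c v = p v then 0 else 1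
  have hA0 : ∀ c v, 0 ≤ A c v := fun c v => measureReal_nonneg
  -- the sum over the points of the box
  have hsumB : ∀ f : Γ → ℝ, ∑ v ∈ E, f v = ∑ x : {v : Γ // v ∈ E}, f x.1 := by
    intro f
    exact (Finset.sum_coe_sort E f).symm
  have hB : ∀ v ∈ E, ∑ c, q c * Bv c v ≤
      (PP Γ).real {b | tb T (sg F b) v ≠ p v} + eps v := by
    intro v hv
    by_cases hvD : v ∈ D
    · have h1 := hkP v hv hvD (p v)
      refine le_trans (le_of_eq ?_) h1
      refine Finset.sum_congr rfl fun c _ => ?_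
      simp only [Bv, Q, if_pos hvD]
    · have h1 : ∑ c, q c * Bv c v = 0 := by
        refine Finset.sum_eq_zero fun c _ => ?_
        simp only [Bv, Q, if_neg hvD, if_true, mul_zero]
      rw [h1]
      exact add_nonneg measureReal_nonneg (he0 v)
  -- first estimate
  have hA1 : ∀ (c : Cs) (x : {v : Γ // v ∈ E}), A c x.1 ≤
      (if x.1 ∈ D then 0 else eps x.1) + ∑ l, lam l * ind c (rs E (conf l c)) x := by
    intro c x
    by_cases hx : x.1 ∈ D
    · rw [if_pos hx, zero_add]
      have h1 : {b : Om Γ | Φ c (tb T (sg F b)) x.1 ≠ Q c x.1} ⊆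
          ⋃ l ∈ (Finset.univ.filter fun l => conf l c x.1 ≠ P c x.1),
            {b | rs (bd (dif W) E) (tb T (sg F b)) = l} := by
        intro b hb
        simp only [Set.mem_iUnion]
        refine ⟨rs (bd (dif W) E) (tb T (sg F b)), ?_, rfl⟩
        rw [Finset.mem_filter]
        refine ⟨Finset.mem_univ _, ?_⟩
        have hb' : conf (rs (bd (dif W) E) (tb T (sg F b))) c x.1 ≠ Q c x.1 := hb
        simp only [Q, if_pos hx] at hb'
        exact hb'
      have h2 : A c x.1 ≤ ∑ l ∈ (Finset.univ.filter fun l => conf l c x.1 ≠ P c x.1), lam l := by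
        refine le_trans (measureReal_mono h1 (measure_ne_top _ _)) ?_
        exact measureReal_biUnion_finset_le _ _
      refine h2.trans (le_of_eq ?_)
      rw [Finset.sum_filter]
      refine Finset.sum_congr rfl fun l _ => ?_
      have e1 : ind c (rs E (conf l c)) x = if conf l c x.1 = P c x.1 then 0 else 1 := by
        simp only [ind, if_pos hx]
        rfl
      rw [e1]
      by_cases h3 : conf l c x.1 = P c x.1
      · rw [if_neg (not_not.2 h3), if_pos h3, mul_zero]
      · rw [if_pos h3, if_neg h3, mul_one]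
    · rw [if_neg hx]
      have h1 : A c x.1 ≤ 1 := measureReal_le_one
      have h2 := heD x.1 x.2 hx
      have h3 : 0 ≤ ∑ l, lam l * ind c (rs E (conf l c)) x :=
        Finset.sum_nonneg fun l _ => mul_nonneg (hlam0 l) (hind0 _ _ _)
      linarith
  have hA2 : ∀ c, ∑ v ∈ E, M v * A c v ≤
      ∑ x : {v : Γ // v ∈ E}, M x.1 * (if x.1 ∈ D then 0 else eps x.1) +
        ∑ l, lam l * cost c (rs E (conf l c)) := by
    intro c
    rw [hsumB]
    have h1 : ∑ l, lam l * cost c (rs E (conf l c)) =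
        ∑ x : {v : Γ // v ∈ E}, M x.1 *
          ∑ l, lam l * ind c (rs E (conf l c)) x := by
      simp only [cost, Finset.mul_sum]
      rw [Finset.sum_comm]
      refine Finset.sum_congr rfl fun x _ => Finset.sum_congr rfl fun l _ => ?_
      ring
    rw [h1, ← Finset.sum_add_distrib]
    refine Finset.sum_le_sum fun x _ => ?_
    rw [← mul_add]
    exact mul_le_mul_of_nonneg_left (hA1 c x) (hM _)
  have hA3 : ∑ c, q c * ∑ l, lam l * cost c (rs E (conf l c)) ≤
      ∑ c, ∑ l, ∑ u, kap l c u * cost c u := by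
    refine Finset.sum_le_sum fun c _ => ?_
    rw [Finset.mul_sum]
    refine Finset.sum_le_sum fun l _ => ?_
    refine le_trans (le_of_eq ?_) (hconf2 l c)
    ring
  have hA4 : ∑ c, ∑ l, ∑ u, kap l c u * cost c u =
      ∑ x : {v : Γ // v ∈ E}, M x.1 * ∑ l, ∑ c, ∑ u, kap l c u * ind c u x :=
    sum4 kap (fun x : {v : Γ // v ∈ E} => M x.1) ind
  have hA5 : ∀ x : {v : Γ // v ∈ E}, ∑ l, ∑ c, ∑ u, kap l c u * ind c u x ≤
      if x.1 ∈ D then eps x.1 else 0 := by
    intro x
    by_cases hx : x.1 ∈ D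
    · rw [if_pos hx]
      refine le_trans (le_of_eq ?_) (hkv x.1 x.2 hx)
      refine Finset.sum_congr rfl fun l _ => Finset.sum_congr rfl fun c _ =>
        Finset.sum_congr rfl fun u _ => ?_
      simp only [ind, if_pos hx, mul_ite, mul_zero, mul_one]
    · rw [if_neg hx]
      refine le_of_eq (Finset.sum_eq_zero fun l _ => Finset.sum_eq_zero fun c _ =>
        Finset.sum_eq_zero fun u _ => ?_)
      simp only [ind, if_neg hx, mul_zero]
  have hA : ∑ c, q c * ∑ v ∈ E, M v * A c v ≤ ∑ v ∈ E, M v * eps v := by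
    calc ∑ c, q c * ∑ v ∈ E, M v * A c v
        ≤ ∑ c, q c * (∑ x : {v : Γ // v ∈ E}, M x.1 * (if x.1 ∈ D then 0 else eps x.1) +
            ∑ l, lam l * cost c (rs E (conf l c))) :=
          Finset.sum_le_sum fun c _ => mul_le_mul_of_nonneg_left (hA2 c) (hq0 c)
      _ = ∑ x : {v : Γ // v ∈ E}, M x.1 * (if x.1 ∈ D then 0 else eps x.1) +
            ∑ c, q c * ∑ l, lam l * cost c (rs E (conf l c)) := by
          simp only [mul_add, Finset.sum_add_distrib]
          rw [← Finset.sum_mul, hq1, one_mul]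
      _ ≤ ∑ x : {v : Γ // v ∈ E}, M x.1 * (if x.1 ∈ D then 0 else eps x.1) +
            ∑ x : {v : Γ // v ∈ E}, M x.1 * (if x.1 ∈ D then eps x.1 else 0) := by
          refine add_le_add_right (hA3.trans ?_) _
          rw [hA4]
          exact Finset.sum_le_sum fun x _ => mul_le_mul_of_nonneg_left (hA5 x) (hM _)
      _ = ∑ v ∈ E, M v * eps v := by
          rw [hsumB, ← Finset.sum_add_distrib]
          refine Finset.sum_congr rfl fun x _ => ?_
          by_cases hx : x.1 ∈ D
          · rw [if_pos hx, if_pos hx]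
            ring
          · rw [if_neg hx, if_neg hx]
            ring
  have hmain : ∑ c, q c * ∑ v ∈ E, M v * (A c v + κ * Bv c v) ≤
      ∑ v ∈ E, M v * (eps v +
        κ * ((PP Γ).real {b | tb T (sg F b) v ≠ p v} + eps v)) := by
    have h1 : ∑ c, q c * ∑ v ∈ E, M v * (A c v + κ * Bv c v) =
        ∑ c, q c * ∑ v ∈ E, M v * A c v +
          κ * ∑ v ∈ E, M v * ∑ c, q c * Bv c v := by
      have h2 : ∑ c, q c * ∑ v ∈ E, M v * (κ * Bv c v) =
          κ * ∑ v ∈ E, M v * ∑ c, q c * Bv c v := by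
        simp only [Finset.mul_sum]
        rw [Finset.sum_comm]
        refine Finset.sum_congr rfl fun v _ => Finset.sum_congr rfl fun c _ => ?_
        ring
      rw [← h2, ← Finset.sum_add_distrib]
      refine Finset.sum_congr rfl fun c _ => ?_
      rw [← mul_add, ← Finset.sum_add_distrib]
      congr 1
      refine Finset.sum_congr rfl fun v _ => ?_
      ring
    rw [h1]
    have h3 : κ * ∑ v ∈ E, M v * ∑ c, q c * Bv c v ≤
        κ * ∑ v ∈ E, M v * ((PP Γ).real {b | tb T (sg F b) v ≠ p v} + eps v) := by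
      refine mul_le_mul_of_nonneg_left ?_ hκ
      exact Finset.sum_le_sum fun v hv => mul_le_mul_of_nonneg_left (hB v hv) (hM v)
    refine (add_le_add hA h3).trans (le_of_eq ?_)
    rw [Finset.mul_sum, ← Finset.sum_add_distrib]
    refine Finset.sum_congr rfl fun v _ => ?_
    ring
  obtain ⟨c, hc⟩ := exists_le_of_avg q _ _ hq0 hq1 hmain
  refine ⟨Q c, Φ c, ⟨?_, ?_⟩, hc⟩
  · intro τ τ' h
    have h1 : rs (bd (dif W) E) τ = rs (bd (dif W) E) τ' := by
      funext v
      exact h v.1 v.2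
    simp only [Φ, h1]
  · intro τ hτ
    obtain ⟨h1, h2⟩ := hconf1 (rs (bd (dif W) E) τ) c ⟨τ, hτ, rfl⟩
    refine ⟨fun v hv => ?_, h1⟩
    exact congrFun h2 ⟨v, hv⟩

end Pool.Agent.Y469.AM

end
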